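import Pool.Agent.N728.SP.Def

/-!
SP/GAP (for helper728): the model in arithmetic progressions, trivial bound of the model.
-/

set_option autoImplicit false

namespace Pool.Agent.N141.SP

open Finset Pool.Agent.N728.SP

theorem abs_factor_le (p n : ℕ) (hp : p.Prime) :
    |(if p ∣ n then (-1 : ℝ) else 1 / ((p : ℝ) - 1))| ≤ 1 := by
  have h2 : (2 : ℝ) ≤ p := by exact_mod_cast hp.two_le
  split_ifs
  · simp
  · rw [abs_of_nonneg (by apply div_nonneg <;> linarith), div_le_one (by linarith)]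
    linarith

theorem abs_hh_le (r n : ℕ) : |hh r n| ≤ 1 := by
  unfold hh
  rw [Finset.abs_prod]
  exact Finset.prod_le_one (fun _ _ => abs_nonneg _)
    (fun p hp => abs_factor_le p n (Nat.prime_of_mem_primeFactors hp))

theorem hh_congr {r a b : ℕ} (h : ∀ p, p.Prime → p ∣ r → (p ∣ a ↔ p ∣ b)) : hh r a = hh r b := by
  unfold hh
  refine Finset.prod_congr rfl fun p hp => ?_
  have := h p (Nat.prime_of_mem_primeFactors hp) (Nat.dvd_of_mem_primeFactors hp)
  by_cases h1 : p ∣ a
  · rw [if_pos h1, if_pos (this.mp h1)]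
  · rw [if_neg h1, if_neg (fun h2 => h1 (this.mpr h2))]

theorem hh_mul_prime {p r : ℕ} (hp : p.Prime) (hr : ¬ p ∣ r) (n : ℕ) :
    hh (p * r) n = (if p ∣ n then (-1 : ℝ) else 1 / ((p : ℝ) - 1)) * hh r n := by
  have hr0 : r ≠ 0 := fun h => hr (h ▸ dvd_zero p)
  unfold hh
  rw [Nat.primeFactors_mul hp.ne_zero hr0, hp.primeFactors, ← Finset.insert_eq,
    Finset.prod_insert (fun h => hr (Nat.dvd_of_mem_primeFactors h))]

theorem sum_prime {p D : ℕ} (hp : p.Prime) (hD : ¬ p ∣ D) (C : ℕ) :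
    ∑ b ∈ range p, (if p ∣ C + D * b then (-1 : ℝ) else 1 / ((p : ℝ) - 1)) = 0 := by
  have : Fact p.Prime := ⟨hp⟩
  have hD0 : (D : ZMod p) ≠ 0 := by
    rwa [Ne, ZMod.natCast_eq_zero_iff]
  set b0 : ℕ := (-(C : ZMod p) / D).val with hb0
  have hiff : ∀ b ∈ range p, (p ∣ C + D * b ↔ b = b0) := by
    intro b hb
    rw [Finset.mem_range] at hb
    rw [← ZMod.natCast_eq_zero_iff]
    push_cast
    constructor
    · intro h
      have h1 : (b : ZMod p) = -(C : ZMod p) / D := by
        rw [eq_div_iff hD0]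
        linear_combination h
      rw [hb0, ← h1, ZMod.val_natCast, Nat.mod_eq_of_lt hb]
    · intro h
      rw [h, hb0, ZMod.natCast_zmod_val]
      field_simp
      ring
  have h2 : (2 : ℝ) ≤ p := by exact_mod_cast hp.two_le
  have h3 : ∑ b ∈ range p, (if p ∣ C + D * b then (-1 : ℝ) else 1 / ((p : ℝ) - 1)) =
      ∑ b ∈ range p, (1 / ((p : ℝ) - 1) + if b = b0 then (-1 - 1 / ((p : ℝ) - 1)) else 0) := by
    refine Finset.sum_congr rfl fun b hb => ?_
    by_cases h : b = b0
    · rw [if_pos ((hiff b hb).mpr h), if_pos h]; ring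
    · rw [if_neg (fun h' => h ((hiff b hb).mp h')), if_neg h, add_zero]
  have hb0' : b0 ∈ range p := Finset.mem_range.mpr (ZMod.val_lt _)
  rw [h3, Finset.sum_add_distrib, Finset.sum_ite_eq' , if_pos hb0']
  simp only [sum_const, card_range, nsmul_eq_mul]
  have : (p : ℝ) - 1 ≠ 0 := by linarith
  field_simp
  ring

theorem sum_range_mul' (f : ℕ → ℝ) (r m : ℕ) :
    ∑ k ∈ range (r * m), f k = ∑ b ∈ range m, ∑ a ∈ range r, f (r * b + a) := by
  induction m with
  | zero => simp
  | succ m ih => rw [Nat.mul_succ, Finset.sum_range_add, ih, Finset.sum_range_succ]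

theorem sum_period {p r B : ℕ} (hp : p.Prime) (hr : ¬ p ∣ r) (hB : ¬ p ∣ B) (C : ℕ) :
    ∑ k ∈ range (r * p), hh (p * r) (C + B * k) = 0 := by
  rw [sum_range_mul', Finset.sum_comm]
  refine Finset.sum_eq_zero fun a _ => ?_
  have h1 : ∀ b ∈ range p, hh (p * r) (C + B * (r * b + a)) =
      hh r (C + B * a) * (if p ∣ (C + B * a) + (B * r) * b then (-1 : ℝ) else 1 / ((p : ℝ) - 1)) := by
    intro b _
    rw [hh_mul_prime hp hr, mul_comm]
    congr 1
    · apply hh_congr
      intro l _ hl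
      have : C + B * (r * b + a) = (C + B * a) + r * (B * b) := by ring
      rw [this]
      exact (Nat.dvd_add_left (dvd_mul_of_dvd_left hl _))
    · have : C + B * (r * b + a) = (C + B * a) + (B * r) * b := by ring
      rw [this]
  rw [Finset.sum_congr rfl h1, ← Finset.mul_sum, sum_prime hp _ _, mul_zero]
  intro h
  rcases (hp.dvd_mul).mp h with h | h
  · exact hB h
  · exact hr h

theorem abs_sum_periodic {f : ℕ → ℝ} {T : ℕ} (hT : 0 < T) (hper : ∀ m k, f (T * m + k) = f k)
    (h0 : ∑ k ∈ range T, f k = 0) (hf : ∀ k, |f k| ≤ 1) (n : ℕ) : |∑ k ∈ range n, f k| ≤ T := by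
  have h1 : n = T * (n / T) + n % T := (Nat.div_add_mod n T).symm
  rw [h1, Finset.sum_range_add, sum_range_mul']
  have h2 : ∑ b ∈ range (n / T), ∑ a ∈ range T, f (T * b + a) = 0 :=
    Finset.sum_eq_zero fun b _ => by
      rw [Finset.sum_congr rfl (fun a _ => hper b a), h0]
  rw [h2, zero_add]
  refine (Finset.abs_sum_le_sum_abs _ _).trans ?_
  refine (Finset.sum_le_card_nsmul _ _ 1 fun k _ => hf _).trans ?_
  rw [card_range, nsmul_eq_mul, mul_one]
  exact_mod_cast (Nat.mod_lt n hT).le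

theorem partial_sum {M r d A : ℕ} (hsq : Squarefree r) (hcop : r.Coprime M) (hrd : ¬ r ∣ d)
    (n : ℕ) : |∑ k ∈ range n, hh r (M * (A + d * k) + 1)| ≤ r := by
  have hr0 : r ≠ 0 := hsq.ne_zero
  obtain ⟨p, hp, hpr, hpd⟩ : ∃ p, p.Prime ∧ p ∣ r ∧ ¬ p ∣ d := by
    by_contra hcon
    push Not at hcon
    apply hrd
    have hd0 : d ≠ 0 := fun h => hrd (h ▸ dvd_zero r)
    rw [← Nat.prod_primeFactors_of_squarefree hsq]
    refine dvd_trans ?_ (Nat.prod_primeFactors_dvd d)
    apply Finset.prod_dvd_prod_of_subset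
    intro p hp
    have hp' := Nat.prime_of_mem_primeFactors hp
    exact Nat.mem_primeFactors.mpr ⟨hp', hcon p hp' (Nat.dvd_of_mem_primeFactors hp), hd0⟩
  obtain ⟨r', rfl⟩ := hpr
  have hr' : ¬ p ∣ r' := by
    intro h
    have h1 : p * p ∣ p * r' := Nat.mul_dvd_mul_left p h
    exact hp.one_lt.ne' (Nat.isUnit_iff.mp (hsq p h1))
  have hpM : ¬ p ∣ M := by
    intro h
    have h1 : p ∣ Nat.gcd (p * r') M := Nat.dvd_gcd (dvd_mul_right _ _) h
    rw [hcop] at h1
    exact hp.one_lt.ne' (Nat.dvd_one.mp h1)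
  have hB : ¬ p ∣ M * d := fun h => by
    rcases (hp.dvd_mul).mp h with h | h
    · exact hpM h
    · exact hpd h
  have hf : ∀ k, hh (p * r') (M * (A + d * k) + 1) = hh (p * r') ((M * A + 1) + (M * d) * k) := by
    intro k
    congr 1
    ring
  rw [Finset.sum_congr rfl (fun k _ => hf k)]
  have hpos : 0 < p * r' := Nat.pos_of_ne_zero hr0
  refine abs_sum_periodic hpos ?_ ?_ (fun k => abs_hh_le _ _) n
  · intro m k
    apply hh_congr
    intro l _ hl
    have : M * A + 1 + M * d * (p * r' * m + k) = (M * A + 1 + M * d * k) + (p * r') * (M * d * m) := by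
      ring
    rw [this]
    exact Nat.dvd_add_left (dvd_mul_of_dvd_left hl _)
  · rw [mul_comm p r']
    have := sum_period (p := p) (r := r') hp hr' hB (M * A + 1)
    rw [mul_comm p r'] at this
    exact this

theorem main_term (M Q d A : ℕ) (hd : 1 ≤ d) (hdQ : d ≤ Q) :
    ∑ r ∈ (RR M Q).filter (fun r => r ∣ d), hh r (M * A + 1) =
      ∏ p ∈ d.primeFactors.filter (fun p => ¬ p ∣ M),
        (if p ∣ M * A + 1 then 0 else (p : ℝ) / (p - 1)) := by
  set S := d.primeFactors.filter (fun p => ¬ p ∣ M) with hS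
  have h1 : ∏ p ∈ S, (if p ∣ M * A + 1 then 0 else (p : ℝ) / (p - 1)) =
      ∏ p ∈ S, (1 + (if p ∣ M * A + 1 then (-1 : ℝ) else 1 / ((p : ℝ) - 1))) := by
    refine Finset.prod_congr rfl fun p hp => ?_
    have hp' : p.Prime := Nat.prime_of_mem_primeFactors (Finset.mem_filter.mp hp).1
    have h2 : (2 : ℝ) ≤ p := by exact_mod_cast hp'.two_le
    have h3 : (p : ℝ) - 1 ≠ 0 := by linarith
    split_ifs
    · ring
    · field_simp
      ring
  rw [h1, Finset.prod_one_add]
  have hprime : ∀ T ∈ S.powerset, ∀ p ∈ T, p.Prime := fun T hT p hp =>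
    Nat.prime_of_mem_primeFactors (Finset.mem_filter.mp (Finset.mem_powerset.mp hT hp)).1
  refine Finset.sum_bij' (fun r _ => r.primeFactors) (fun T _ => ∏ p ∈ T, p) ?_ ?_ ?_ ?_ ?_
  · intro r hr
    rw [Finset.mem_filter, RR, Finset.mem_filter] at hr
    rw [Finset.mem_powerset, hS]
    intro p hp
    rw [Finset.mem_filter]
    refine ⟨Nat.primeFactors_mono hr.2 (by omega) hp, ?_⟩
    intro hpM
    have h2 : p ∣ Nat.gcd r M := Nat.dvd_gcd (Nat.dvd_of_mem_primeFactors hp) hpM
    rw [hr.1.2.2] at h2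
    exact (Nat.prime_of_mem_primeFactors hp).one_lt.ne' (Nat.dvd_one.mp h2)
  · intro T hT
    have hT' := hprime T hT
    have hpf : (∏ p ∈ T, p).primeFactors = T := Nat.primeFactors_prod hT'
    have hdvd : (∏ p ∈ T, p) ∣ d := by
      refine dvd_trans ?_ (Nat.prod_primeFactors_dvd d)
      apply Finset.prod_dvd_prod_of_subset
      intro p hp
      exact (Finset.mem_filter.mp (Finset.mem_powerset.mp hT hp)).1
    rw [Finset.mem_filter, RR, Finset.mem_filter, Finset.mem_Icc]
    refine ⟨⟨⟨?_, (Nat.le_of_dvd (by omega) hdvd).trans hdQ⟩, ?_, ?_⟩, hdvd⟩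
    · exact Nat.one_le_iff_ne_zero.mpr (Finset.prod_ne_zero_iff.mpr fun p hp => (hT' p hp).ne_zero)
    · exact Finset.squarefree_prod_of_pairwise_isCoprime
        (fun p hp q hq hpq => Nat.coprime_iff_isRelPrime.mp
          ((Nat.coprime_primes (hT' p hp) (hT' q hq)).mpr hpq))
        (fun p hp => (hT' p hp).squarefree)
    · rw [Nat.coprime_prod_left_iff]
      intro p hp
      rw [(hT' p hp).coprime_iff_not_dvd]
      exact (Finset.mem_filter.mp (Finset.mem_powerset.mp hT hp)).2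
  · intro r hr
    rw [Finset.mem_filter, RR, Finset.mem_filter] at hr
    exact Nat.prod_primeFactors_of_squarefree hr.1.2.1
  · intro T hT
    exact Nat.primeFactors_prod (hprime T hT)
  · intro r _
    rfl

theorem t_GB : S_GB := by
  intro M Q s
  unfold gg
  refine (Finset.abs_sum_le_sum_abs _ _).trans ?_
  refine (Finset.sum_le_card_nsmul _ _ 1 fun r _ => abs_hh_le _ _).trans ?_
  rw [nsmul_eq_mul, mul_one]
  have : (RR M Q).card ≤ Q := (Finset.card_filter_le _ _).trans (by simp)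
  exact_mod_cast this

theorem t_GA : S_GA := by
  intro M Q d A n hM hd hdQ
  have h1 : ∑ k ∈ range n, gg M Q (A + d * k) =
      ∑ r ∈ RR M Q, ∑ k ∈ range n, hh r (M * (A + d * k) + 1) := by
    unfold gg
    rw [Finset.sum_comm]
  rw [h1, ← Finset.sum_filter_add_sum_filter_not (RR M Q) (fun r => r ∣ d)]
  have h2 : ∑ r ∈ (RR M Q).filter (fun r => r ∣ d), ∑ k ∈ range n, hh r (M * (A + d * k) + 1) =
      n * ∏ p ∈ d.primeFactors.filter (fun p => ¬ p ∣ M),
        (if p ∣ M * A + 1 then 0 else (p : ℝ) / (p - 1)) := by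
    rw [← main_term M Q d A hd hdQ, Finset.mul_sum]
    refine Finset.sum_congr rfl fun r hr => ?_
    have hrd : r ∣ d := (Finset.mem_filter.mp hr).2
    have h3 : ∀ k ∈ range n, hh r (M * (A + d * k) + 1) = hh r (M * A + 1) := by
      intro k _
      apply hh_congr
      intro l _ hl
      have : M * (A + d * k) + 1 = (M * A + 1) + d * (M * k) := by ring
      rw [this]
      exact Nat.dvd_add_left (dvd_mul_of_dvd_left (hl.trans hrd) _)
    rw [Finset.sum_congr rfl h3]
    simp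
  rw [h2, add_sub_cancel_left]
  refine (Finset.abs_sum_le_sum_abs _ _).trans ?_
  refine (Finset.sum_le_card_nsmul _ _ (Q : ℝ) fun r hr => ?_).trans ?_
  · rw [Finset.mem_filter, RR, Finset.mem_filter, Finset.mem_Icc] at hr
    refine (partial_sum hr.1.2.1 hr.1.2.2 hr.2 n).trans ?_
    exact_mod_cast hr.1.1.2
  · rw [nsmul_eq_mul, sq]
    have : ((RR M Q).filter (fun r => ¬ r ∣ d)).card ≤ Q :=
      (Finset.card_filter_le _ _).trans ((Finset.card_filter_le _ _).trans (by simp))
    exact mul_le_mul_of_nonneg_right (by exact_mod_cast this) (by positivity)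

end Pool.Agent.N141.SP
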